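import Mathlib
import Pool.Agent.W398.SG.StmC

/-! SG-C-ZW -/

set_option autoImplicit false

namespace Pool.Agent.W933.SG

open Pool.Agent.W37.SG Pool.Agent.W398.SG.C

/-- a nontrivial normal subgroup of a finite `p`-group meets the centre nontrivially -/
theorem meets {p : ℕ} [Fact p.Prime] {P : Type} [Group P] [Finite P] (hP : IsPGroup p P)
    (E : Subgroup P) (hE : E.Normal) (hne : ∃ x ∈ E, x ≠ 1) :
    ∃ z ∈ E, z ≠ 1 ∧ ∀ g, g * z = z * g := by
  obtain ⟨x, hx, hx1⟩ := hne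
  have hPc : IsPGroup p (ConjAct P) := hP.of_equiv ConjAct.toConjAct
  have hcard : p ∣ Nat.card E := by
    rcases (hP.to_subgroup E).card_eq_or_dvd with h | h
    · exfalso
      rw [Nat.card_eq_one_iff_unique] at h
      obtain ⟨hs, _⟩ := h
      apply hx1
      have : (⟨x, hx⟩ : E) = 1 := Subsingleton.elim _ _
      exact congrArg Subtype.val this
    · exact h
  have h1 : (1 : E) ∈ MulAction.fixedPoints (ConjAct P) E := by
    intro g
    exact smul_one g
  obtain ⟨b, hb, hb1⟩ := hPc.exists_fixed_point_of_prime_dvd_card_of_fixed_point E hcard h1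
  refine ⟨b, b.2, fun h => hb1 (Subtype.ext h.symm), fun g => ?_⟩
  have h2 := hb (ConjAct.toConjAct g)
  have h3 := congrArg Subtype.val h2
  rw [ConjAct.Subgroup.val_conj_smul, ConjAct.toConjAct_smul] at h3
  calc g * (b : P) = g * b * g⁻¹ * g := by group
    _ = b * g := by rw [h3]

theorem main : S_ZW := by
  intro p _ P _ _ hP hE
  obtain ⟨E, hEn, hEc, hEp⟩ := hE
  have hp : p.Prime := Fact.out
  have hp2 : 2 ≤ p := hp.two_le
  have hnontriv : ∃ x ∈ E, x ≠ 1 := by
    by_contra hcon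
    push Not at hcon
    have hbot : E = ⊥ := (Subgroup.eq_bot_iff_forall E).2 hcon
    rw [hbot, Subgroup.card_bot] at hEc
    nlinarith
  obtain ⟨z, hzE, hz1, hzc⟩ := meets hP E hEn hnontriv
  have hoz : orderOf z = p := orderOf_eq_prime (hEp z hzE) hz1
  set F := Subgroup.zpowers z with hF
  have hFn : F.Normal := by
    refine ⟨fun n hn g => ?_⟩
    obtain ⟨k, rfl⟩ := Subgroup.mem_zpowers_iff.1 hn
    have hc : Commute g z := hzc g
    rw [(hc.zpow_right k).eq, mul_assoc, mul_inv_cancel, mul_one]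
    exact hn
  have hex : ∃ x ∈ E, x ∉ F := by
    by_contra hcon
    push Not at hcon
    have h1 : Nat.card E ≤ Nat.card F := Subgroup.card_le_of_le hcon
    rw [hEc, hF, Nat.card_zpowers, hoz] at h1
    nlinarith
  obtain ⟨x, hxE, hxF⟩ := hex
  have hEbn : (E.map (QuotientGroup.mk' F)).Normal :=
    hEn.map _ (QuotientGroup.mk'_surjective F)
  obtain ⟨wb, hwbE, hwb1, hwbc⟩ := meets (hP.to_quotient F) (E.map (QuotientGroup.mk' F)) hEbn
    ⟨QuotientGroup.mk' F x, Subgroup.mem_map_of_mem _ hxE, fun h => hxF ((QuotientGroup.eq_one_iff x).1 h)⟩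
  obtain ⟨w, hwE, hw⟩ := Subgroup.mem_map.1 hwbE
  refine ⟨z, w, hzc, hoz, hEp w hwE, fun h => hwb1 ?_, fun g => ?_⟩
  · rw [← hw]
    exact (QuotientGroup.eq_one_iff w).2 h
  · have h1 := hwbc (QuotientGroup.mk' F g)
    have h2 : QuotientGroup.mk' F (w⁻¹ * (g⁻¹ * w * g)) = 1 := by
      simp only [map_mul, map_inv, hw]
      have h3 : (QuotientGroup.mk' F g)⁻¹ * wb * (QuotientGroup.mk' F g) = wb := by
        rw [mul_assoc, ← h1, inv_mul_cancel_left]
      rw [h3, inv_mul_cancel]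
    have h3 : w⁻¹ * (g⁻¹ * w * g) ∈ F := (QuotientGroup.eq_one_iff _).1 h2
    have h4 : w⁻¹ * (g⁻¹ * w * g) ∈ Submonoid.powers z := by
      rw [(isOfFinOrder_of_finite z).mem_powers_iff_mem_zpowers]
      exact h3
    obtain ⟨i, hi⟩ := Submonoid.mem_powers_iff _ _ |>.1 h4
    exact ⟨i, by rw [hi, mul_inv_cancel_left]⟩

end Pool.Agent.W933.SG
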